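import Mathlib
import Pool.Agent.W93.TD.Stm

/-!
# The BCH bound
-/

set_option autoImplicit false

namespace Pool.Agent.W225.TD

open Finset

theorem t_VAND : W93.TD.S_VAND := by
  intro F _ a I c s0 ha hI hc
  let e : Fin I.card ≃ I := I.equivFin.symm
  have hinj : Function.Injective (fun i : Fin I.card => a ^ ((e i : ℕ))) := by
    intro i j hij
    exact e.injective (Subtype.ext (hI _ (e i).2 _ (e j).2 hij))
  have hsum : ∀ s : Fin I.card, ∑ j : Fin I.card,
      (c (e j) * (a ^ ((e j : ℕ))) ^ s0) * (a ^ ((e j : ℕ))) ^ (s : ℕ) = 0 := by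
    intro s
    have h1 := hc (s0 + s) (Nat.le_add_right _ _) (Nat.add_lt_add_left s.2 s0)
    rw [← h1, ← Finset.sum_coe_sort I, ← e.sum_comp]
    refine Finset.sum_congr rfl fun j _ => ?_
    rw [mul_assoc, ← pow_add, ← pow_mul, ← pow_mul, mul_comm (e j : ℕ)]
  have h := Matrix.eq_zero_of_forall_pow_sum_mul_pow_eq_zero hinj hsum
  intro i hi
  have h1 := congrFun h (e.symm ⟨i, hi⟩)
  simp only [Equiv.apply_symm_apply, Pi.zero_apply] at h1
  rcases mul_eq_zero.1 h1 with h2 | h2
  · exact h2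
  · exact absurd h2 (pow_ne_zero _ (pow_ne_zero _ ha))

end Pool.Agent.W225.TD
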